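import Mathlib
import Pool.Agent.X153.OH.Glue

/-!
# MP_721462_co: `f(H, p, 1) = C(n, p) - b(H, p)` fails for `r = 4`, `p = 2`

There is a 4-uniform hypergraph `H` all of whose vertex pairs can be 6-coloured without a
2-monochromatic edge, so `b(H, 2) = C(n, 2)`, but for which every orientation has a pair with full
degree vector, so `f(H, 2, 1) ≥ 1`.

An orientation without full pair colours every pair `A` by a missing position set `P(A)`. An edge
`abcd` with `P(ac) = P(bd) = P(ad) = P(bc) = P` and `P(ab) = P(cd) = Pᶜ` is impossible, although it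
is not monochromatic. `H` is built from copies of a critical non-6-colourable hypergraph minus an
edge (Ramsey's theorem), each of which forces four vertices to span a monochromatic `K₄`; these
copies force six reference pairs to receive six different colours and, for every two of these
colours, an edge with the above pattern.
-/

namespace Pool.Agent.Results.MP_721462_co.NotTight

open Pool.Agent.X153.OH

section Defs
variable {V : Type} [Fintype V] [DecidableEq V]

/-- An orientation of the `r`-uniform hypergraph `H`: every edge is mapped bijectively onto the set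
of positions `Fin r`. -/
def IsOrientation (r : ℕ) (H : Finset (Finset V)) (D : Finset V → V → Fin r) : Prop :=
  ∀ E ∈ H, Set.BijOn (D E) (E : Set V) Set.univ

/-- `d_P(A)`: the number of edges containing `A` in which `A` occupies exactly the positions `P`. -/
def posDegree (r : ℕ) (H : Finset (Finset V)) (D : Finset V → V → Fin r) (A : Finset V)
    (P : Finset (Fin r)) : ℕ :=
  (H.filter (fun E => A ⊆ E ∧ A.image (D E) = P)).card

/-- `f(D, p, k)`: the number of `p`-sets `A` with `d_P(A) ≥ k` for all `p`-sets `P` of positions. -/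
def fullCount (r : ℕ) (H : Finset (Finset V)) (D : Finset V → V → Fin r) (p k : ℕ) : ℕ :=
  (((Finset.univ : Finset V).powersetCard p).filter
    (fun A => ∀ P ∈ (Finset.univ : Finset (Fin r)).powersetCard p,
      k ≤ posDegree r H D A P)).card

/-- `f(H, p, k)`: the minimum of `f(D, p, k)` over all orientations. -/
noncomputable def f (r : ℕ) (H : Finset (Finset V)) (p k : ℕ) : ℕ :=
  sInf {m | ∃ D : Finset V → V → Fin r, IsOrientation r H D ∧ fullCount r H D p k = m}

/-- The family `B` of `p`-sets has a colouring with `C(r, p)` colours such that no edge all of whose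
`p`-subsets lie in `B` is `p`-monochromatic. -/
def Colourable (r : ℕ) (H : Finset (Finset V)) (p : ℕ) (B : Finset (Finset V)) : Prop :=
  ∃ c : Finset V → Fin (r.choose p), ∀ E ∈ H, E.powersetCard p ⊆ B →
    ¬ ∃ k, ∀ A ∈ E.powersetCard p, c A = k

/-- `b(H, p)`. -/
noncomputable def b (r : ℕ) (H : Finset (Finset V)) (p : ℕ) : ℕ :=
  sSup {m | ∃ B : Finset (Finset V), B ⊆ (Finset.univ : Finset V).powersetCard p ∧
    Colourable r H p B ∧ B.card = m}

theorem exists_pairColouring (col : V → V → Fin 6) (hs : ∀ x y, col x y = col y x) :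
    ∃ c : Finset V → Fin 6, ∀ x y, x ≠ y → c {x, y} = col x y := by
  classical
  refine ⟨fun A => if h : ∃ x y, x ≠ y ∧ A = {x, y} then col h.choose h.choose_spec.choose else 0,
    ?_⟩
  intro x y hxy
  have hex : ∃ x' y', x' ≠ y' ∧ ({x, y} : Finset V) = {x', y'} := ⟨x, y, hxy, rfl⟩
  have key : ∀ x' y', x' ≠ y' → ({x, y} : Finset V) = {x', y'} → col x' y' = col x y := by
    intro x' y' _ heq
    have hx : x ∈ ({x', y'} : Finset V) := by rw [← heq]; simp
    have hy : y ∈ ({x', y'} : Finset V) := by rw [← heq]; simp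
    simp only [Finset.mem_insert, Finset.mem_singleton] at hx hy
    rcases hx with hx | hx <;> rcases hy with hy | hy
    · exact absurd (hx.trans hy.symm) hxy
    · rw [hx, hy]
    · rw [hx, hy, hs]
    · exact absurd (hx.trans hy.symm) hxy
  simp only
  rw [dif_pos hex]
  exact key _ _ hex.choose_spec.choose_spec.1 hex.choose_spec.choose_spec.2

theorem b_eq (H : Finset (Finset V)) (hH : SGood H) : b 4 H 2 = (Fintype.card V).choose 2 := by
  have hbdd : ∀ m ∈ {m | ∃ B : Finset (Finset V), B ⊆ (Finset.univ : Finset V).powersetCard 2 ∧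
      Colourable 4 H 2 B ∧ B.card = m}, m ≤ (Fintype.card V).choose 2 := by
    rintro m ⟨B, hB, -, rfl⟩
    have := Finset.card_le_card hB
    rwa [Finset.card_powersetCard, Finset.card_univ] at this
  have hmem : (Fintype.card V).choose 2 ∈ {m | ∃ B : Finset (Finset V),
      B ⊆ (Finset.univ : Finset V).powersetCard 2 ∧ Colourable 4 H 2 B ∧ B.card = m} := by
    obtain ⟨col, hs, hcol⟩ := hH
    obtain ⟨c, hc⟩ := exists_pairColouring col hs
    refine ⟨(Finset.univ : Finset V).powersetCard 2, Finset.Subset.refl _, ⟨c, ?_⟩, ?_⟩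
    · rintro E hE - ⟨k, hk⟩
      refine hcol E hE ⟨k, fun x hx y hy hxy => ?_⟩
      rw [← hc x y hxy]
      apply hk
      rw [Finset.mem_powersetCard]
      refine ⟨?_, Finset.card_pair hxy⟩
      intro z hz
      simp only [Finset.mem_insert, Finset.mem_singleton] at hz
      rcases hz with rfl | rfl
      · exact hx
      · exact hy
    · rw [Finset.card_powersetCard, Finset.card_univ]
  apply le_antisymm
  · exact csSup_le ⟨_, hmem⟩ hbdd
  · exact le_csSup ⟨_, hbdd⟩ hmem

theorem exists_orientation (H : Finset (Finset V)) (hH : ∀ E ∈ H, E.card = 4) :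
    ∃ D : Finset V → V → Fin 4, IsOrientation 4 H D := by
  classical
  refine ⟨fun E v => if h : E.card = 4 then
    (if h' : v ∈ E then E.equivFinOfCardEq h ⟨v, h'⟩ else 0) else 0, ?_⟩
  intro E hE
  have h4 := hH E hE
  refine ⟨fun _ _ => Set.mem_univ _, ?_, ?_⟩
  · intro x hx y hy hxy
    simp only [Finset.mem_coe] at hx hy
    simp only [dif_pos h4, dif_pos hx, dif_pos hy] at hxy
    simpa using (E.equivFinOfCardEq h4).injective hxy
  · intro t _
    refine ⟨((E.equivFinOfCardEq h4).symm t).1, ((E.equivFinOfCardEq h4).symm t).2, ?_⟩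
    simp [h4]

end Defs

/-- an encoding of the 2-subsets of the positions -/
def enc (P : Finset (Fin 4)) : Fin 6 :=
  if P = {0, 1} then 0 else if P = {2, 3} then 1 else if P = {0, 2} then 2
  else if P = {1, 3} then 3 else if P = {0, 3} then 4 else 5

theorem enc_inj : ∀ P Q : Finset (Fin 4), P.card = 2 → Q.card = 2 → enc P = enc Q → P = Q := by
  decide

theorem compl_facts : ∀ Q : Finset (Fin 4), Q.card = 2 → Qᶜ.card = 2 ∧ Q ≠ Qᶜ := by decide

theorem pattern0 : ∀ a b c d : Fin 4, (a ≠ b ∧ a ≠ c ∧ a ≠ d ∧ b ≠ c ∧ b ≠ d ∧ c ≠ d) →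
    ∀ Q : Finset (Fin 4), Q.card = 2 → (({a, c} : Finset (Fin 4)) = Q ∨
    ({b, d} : Finset (Fin 4)) = Q ∨ ({a, d} : Finset (Fin 4)) = Q ∨ ({b, c} : Finset (Fin 4)) = Q ∨
    ({a, b} : Finset (Fin 4)) = Qᶜ ∨ ({c, d} : Finset (Fin 4)) = Qᶜ) := by
  decide +kernel

theorem pattern (a b c d : Fin 4) (h1 : a ≠ b) (h2 : a ≠ c) (h3 : a ≠ d) (h4 : b ≠ c) (h5 : b ≠ d)
    (h6 : c ≠ d) (Q : Finset (Fin 4)) (hQ : Q.card = 2) (g1 : ({a, c} : Finset (Fin 4)) ≠ Q)
    (g2 : ({b, d} : Finset (Fin 4)) ≠ Q) (g3 : ({a, d} : Finset (Fin 4)) ≠ Q)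
    (g4 : ({b, c} : Finset (Fin 4)) ≠ Q) (g5 : ({a, b} : Finset (Fin 4)) ≠ Qᶜ)
    (g6 : ({c, d} : Finset (Fin 4)) ≠ Qᶜ) : False := by
  rcases pattern0 a b c d ⟨h1, h2, h3, h4, h5, h6⟩ Q hQ with h | h | h | h | h | h
  · exact g1 h
  · exact g2 h
  · exact g3 h
  · exact g4 h
  · exact g5 h
  · exact g6 h

/-- There is a 4-uniform hypergraph `H` with `b(H, 2) = C(n, 2)` and `f(H, 2, 1) ≥ 1`; hence
`f(H, p, 1) = C(n, p) - b(H, p)` fails for `r = 4`, `p = 2`. -/
theorem result :
    (∃ (V : Type) (_ : Fintype V) (_ : DecidableEq V) (H : Finset (Finset V)),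
      (∀ E ∈ H, E.card = 4) ∧ b 4 H 2 = (Fintype.card V).choose 2 ∧ 1 ≤ f 4 H 2 1) ∧
    ¬ ∀ (r p : ℕ), 2 ≤ r → 2 ≤ p → p ≤ r → ∀ (V : Type) (_ : Fintype V) (_ : DecidableEq V)
      (H : Finset (Finset V)), (∀ E ∈ H, E.card = r) →
        f r H p 1 = (Fintype.card V).choose p - b r H p := by
  have main : ∃ (V : Type) (_ : Fintype V) (_ : DecidableEq V) (H : Finset (Finset V)),
      (∀ E ∈ H, E.card = 4) ∧ b 4 H 2 = (Fintype.card V).choose 2 ∧ 1 ≤ f 4 H 2 1 := by
    obtain ⟨V, _, _, H, Y, hH4, hgood, hYi, hYH, hforce⟩ := exists_hypergraph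
    refine ⟨V, inferInstance, inferInstance, H, hH4, b_eq H hgood, ?_⟩
    by_contra hlt
    have h0 : f 4 H 2 1 = 0 := by omega
    have hne : {m | ∃ D : Finset V → V → Fin 4, IsOrientation 4 H D ∧
        fullCount 4 H D 2 1 = m}.Nonempty := by
      obtain ⟨D, hD⟩ := exists_orientation H hH4
      exact ⟨_, D, hD, rfl⟩
    obtain ⟨D, hD, hDc⟩ := Nat.sInf_mem hne
    have hDc0 : fullCount 4 H D 2 1 = 0 := by
      rw [hDc]; exact h0
    -- the missing position set of every pair
    have hmiss : ∀ A : Finset V, A.card = 2 → ∃ P : Finset (Fin 4), P.card = 2 ∧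
        ∀ E ∈ H, A ⊆ E → A.image (D E) ≠ P := by
      intro A hA
      unfold fullCount at hDc0
      rw [Finset.card_eq_zero, Finset.filter_eq_empty_iff] at hDc0
      have := hDc0 (x := A) (Finset.mem_powersetCard.2 ⟨Finset.subset_univ _, hA⟩)
      push Not at this
      obtain ⟨P, hP, hlt⟩ := this
      refine ⟨P, (Finset.mem_powersetCard.1 hP).2, ?_⟩
      intro E hE hAE him
      have h1 : posDegree 4 H D A P = 0 := by omega
      unfold posDegree at h1
      rw [Finset.card_eq_zero, Finset.filter_eq_empty_iff] at h1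
      exact h1 hE ⟨hAE, him⟩
    choose! P hPc hP using hmiss
    have hsub : ∀ (E : Finset V) (x y : V), x ∈ E → y ∈ E → ({x, y} : Finset V) ⊆ E := by
      intro E x y hx hy z hz
      simp only [Finset.mem_insert, Finset.mem_singleton] at hz
      rcases hz with rfl | rfl
      · exact hx
      · exact hy
    have hL : ∀ E ∈ H, ∀ x ∈ E, ∀ y ∈ E, x ≠ y →
        ({D E x, D E y} : Finset (Fin 4)) ≠ P {x, y} := by
      intro E hE x hx y hy hxy
      have := hP {x, y} (Finset.card_pair hxy) E hE (hsub E x y hx hy)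
      simpa using this
    obtain ⟨r, hr, hpat⟩ := hforce (fun x y => enc (P {x, y}))
      (fun x y => by simp only [Finset.pair_comm]) (by
        intro E hE
        rintro ⟨k, hk⟩
        have hE4 := hH4 E hE
        -- all pairs of `E` miss the same set
        obtain ⟨x0, hx0, y0, hy0, hxy0⟩ : ∃ x ∈ E, ∃ y ∈ E, x ≠ y := by
          have : 1 < E.card := by omega
          obtain ⟨x, hx, y, hy, hxy⟩ := Finset.one_lt_card.1 this
          exact ⟨x, hx, y, hy, hxy⟩
        set Q := P {x0, y0} with hQ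
        have hQc : Q.card = 2 := hPc _ (Finset.card_pair hxy0)
        obtain ⟨s, t, hst, hQst⟩ := Finset.card_eq_two.1 hQc
        obtain ⟨x, hx, hxs⟩ := (hD E hE).surjOn (Set.mem_univ s)
        obtain ⟨y, hy, hyt⟩ := (hD E hE).surjOn (Set.mem_univ t)
        have hxy : x ≠ y := by
          rintro rfl
          exact hst (hxs.symm.trans hyt)
        have h1 := hk x hx y hy hxy
        have h2 := hk x0 hx0 y0 hy0 hxy0
        have h3 : P {x, y} = Q := enc_inj _ _ (hPc _ (Finset.card_pair hxy)) hQc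
          (h1.trans h2.symm)
        apply hL E hE x hx y hy hxy
        rw [h3, hxs, hyt, hQst])
    have hcardY : ∀ i j : Fin 6, ∀ s t : Fin 4, s ≠ t →
        (P {Y i j s, Y i j t}).card = 2 :=
      fun i j s t hst => hPc _ (Finset.card_pair (fun h => hst (hYi i j h)))
    set Q := P {Y 0 1 0, Y 0 1 2} with hQ
    have hQc : Q.card = 2 := hcardY 0 1 0 2 (by decide)
    have hQr : enc Q = r 0 := (hpat 0 1 (by decide)).1
    obtain ⟨hcc, hcne⟩ := compl_facts Q hQc
    have hsurj : Function.Surjective r := Finite.surjective_of_injective hr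
    obtain ⟨j, hj⟩ := hsurj (enc Qᶜ)
    have hj0 : (0 : Fin 6) ≠ j := by
      rintro rfl
      exact hcne (enc_inj _ _ hQc hcc (hQr.trans hj))
    obtain ⟨p02, p13, p03, p12, p01, p23⟩ := hpat 0 j hj0
    have e02 : P {Y 0 j 0, Y 0 j 2} = Q :=
      enc_inj _ _ (hcardY _ _ _ _ (by decide)) hQc (p02.trans hQr.symm)
    have e13 : P {Y 0 j 1, Y 0 j 3} = Q :=
      enc_inj _ _ (hcardY _ _ _ _ (by decide)) hQc (p13.trans hQr.symm)
    have e03 : P {Y 0 j 0, Y 0 j 3} = Q :=
      enc_inj _ _ (hcardY _ _ _ _ (by decide)) hQc (p03.trans hQr.symm)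
    have e12 : P {Y 0 j 1, Y 0 j 2} = Q :=
      enc_inj _ _ (hcardY _ _ _ _ (by decide)) hQc (p12.trans hQr.symm)
    have e01 : P {Y 0 j 0, Y 0 j 1} = Qᶜ :=
      enc_inj _ _ (hcardY _ _ _ _ (by decide)) hcc (p01.trans hj)
    have e23 : P {Y 0 j 2, Y 0 j 3} = Qᶜ :=
      enc_inj _ _ (hcardY _ _ _ _ (by decide)) hcc (p23.trans hj)
    set E := Finset.univ.image (Y 0 j) with hE
    have hEH : E ∈ H := hYH 0 j hj0
    have hm : ∀ t, Y 0 j t ∈ E := fun t => Finset.mem_image_of_mem _ (Finset.mem_univ _)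
    have hYne : ∀ s t : Fin 4, s ≠ t → Y 0 j s ≠ Y 0 j t := fun s t hst h => hst (hYi 0 j h)
    have hφ : ∀ s t : Fin 4, s ≠ t → D E (Y 0 j s) ≠ D E (Y 0 j t) := by
      intro s t hst h
      exact hYne s t hst ((hD E hEH).injOn (hm s) (hm t) h)
    have hLL : ∀ s t : Fin 4, s ≠ t →
        ({D E (Y 0 j s), D E (Y 0 j t)} : Finset (Fin 4)) ≠ P {Y 0 j s, Y 0 j t} :=
      fun s t hst => hL E hEH _ (hm s) _ (hm t) (hYne s t hst)
    exact pattern (D E (Y 0 j 0)) (D E (Y 0 j 1)) (D E (Y 0 j 2)) (D E (Y 0 j 3))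
      (hφ _ _ (by decide)) (hφ _ _ (by decide)) (hφ _ _ (by decide)) (hφ _ _ (by decide))
      (hφ _ _ (by decide)) (hφ _ _ (by decide)) Q hQc
      (e02 ▸ hLL 0 2 (by decide)) (e13 ▸ hLL 1 3 (by decide)) (e03 ▸ hLL 0 3 (by decide))
      (e12 ▸ hLL 1 2 (by decide)) (e01 ▸ hLL 0 1 (by decide)) (e23 ▸ hLL 2 3 (by decide))
  refine ⟨main, ?_⟩
  intro hall
  obtain ⟨V, _, _, H, hH4, hb, hf⟩ := main
  have := hall 4 2 (by norm_num) (by norm_num) (by norm_num) V inferInstance inferInstance H hH4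
  rw [hb] at this
  omega

end Pool.Agent.Results.MP_721462_co.NotTight
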